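import Pool.Agent.H58.SO.Basic

/-!
# The determining positions (MP_6ab439_lc, row JKS)
-/

set_option autoImplicit false

namespace Pool.Agent.H19.SO

open Pool.Agent.H68.BP Pool.Agent.H58.SF Pool.Agent.H53.GC Pool.Agent.H53.NR Pool.Agent.H58.SO

/-- ranks of the values of a function on a finite set -/
theorem exists_rank {P V : Type} [Finite P] [LinearOrder V] (f : P → V) :
    ∃ Λ : P → ℕ, ∀ a b, Λ a < Λ b ↔ f a < f b := by
  classical
  have : Fintype P := Fintype.ofFinite P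
  refine ⟨fun a => (Finset.univ.filter (fun c => f c < f a)).card, fun a b => ⟨fun h => ?_,
    fun h => ?_⟩⟩
  · by_contra h1
    have h2 : f b ≤ f a := not_lt.1 h1
    refine absurd h (not_lt.2 (Finset.card_le_card fun c hc => ?_))
    rw [Finset.mem_filter] at hc ⊢
    exact ⟨hc.1, hc.2.trans_le h2⟩
  · refine Finset.card_lt_card ⟨fun c hc => ?_, fun h1 => ?_⟩
    · rw [Finset.mem_filter] at hc ⊢
      exact ⟨hc.1, hc.2.trans h⟩
    · have h2 := h1 (Finset.mem_filter.2 ⟨Finset.mem_univ a, h⟩)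
      rw [Finset.mem_filter] at h2
      exact lt_irrefl _ h2.2

section

variable {V X Θ : Type} [LinearOrder V] {M : ℕ} {B : Bs V X Θ M} {σ : Sig} {𝔸 : Str σ V}
  {D : Set Θ} {h : (Fin 6 → V) → (Fin 6 → V) → X × Ordering}

/-- the types of the values of a pair -/
theorem pm_types (hp : PM B 𝔸 h) (z z' : Fin 6 → V) :
    B.L (h z z').1 = B.L (h z z).1 ∧ B.Rt (h z z').1 = B.L (h z' z').1 := by
  have h4 := B.four
  obtain ⟨x, -, hx⟩ := hp none (fun a => if (a : ℕ) = 0 then z else z') (fun _ => trivial)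
  have h1 : ∀ a b : Fin M, B.ct (x a) (x b) =
      h (if (a : ℕ) = 0 then z else z') (if (b : ℕ) = 0 then z else z') := hx
  have e1 := h1 ⟨0, by omega⟩ ⟨1, by omega⟩
  have e2 := h1 ⟨0, by omega⟩ ⟨0, by omega⟩
  have e3 := h1 ⟨1, by omega⟩ ⟨1, by omega⟩
  simp only [if_true, one_ne_zero, if_false] at e1 e2 e3
  rw [← e1, ← e2, ← e3]
  simp only [Bs.ct_fst, B.left, B.right]
  exact ⟨trivial, trivial⟩

/-- two blocks of the same shape in common zones without common entries -/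
theorem two_blocks (hSCF : T_SCF) (B : Bs V X Θ M) (κ : Fin 6 → ℕ) (s : Θ) :
    ∃ z z' : Fin 6 → V, (∀ l, B.vt (z l) = s) ∧ (∀ l, B.vt (z' l) = s) ∧ ZA B κ z z' ∧
      ∀ l l', z l ≠ z' l' := by
  obtain ⟨x0, hx0⟩ := B.surjT s
  obtain ⟨z, hz⟩ := hSCF V X Θ M B (Fin 2) (Fin 6) ℕ (fun _ _ => x0)
    (fun a l => 2 * κ l + a.val) (fun _ _ => 0) (fun _ => ∅)
    (fun _ _ _ _ _ => ⟨fun _ => rfl, fun _ => rfl⟩)
  have ht : ∀ a l, B.vt (z a l) = s := fun a l => (hz.typ a l).trans hx0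
  have hc : ∀ a l b l', B.c (z a l) (z b l') = B.fr (B.vt (z a l)) (B.vt (z b l')) := by
    intro a l b l'
    have h1 := (hz.col a l b l').2 (fun h => h.2 rfl)
    rw [hx0] at h1
    rw [h1, ht, ht]
  refine ⟨z 0, z 1, ht 0, ht 1, ⟨fun l l' hl => ⟨?_, ?_⟩, fun l l' hl => ⟨?_, ?_, ?_, ?_⟩,
    fun l l' _ => ⟨hc _ _ _ _, hc _ _ _ _, hc _ _ _ _, hc _ _ _ _⟩⟩, fun l l' hl => ?_⟩
  · exact (hz.eq_iff _ _ _ _).2 ⟨by rw [hl], rfl⟩
  · exact (hz.eq_iff _ _ _ _).2 ⟨by rw [hl], rfl⟩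
  · refine (hz.lt _ _ _ _).2 (Or.inl ?_)
    show 2 * κ l + 0 < 2 * κ l' + 0
    omega
  · refine (hz.lt _ _ _ _).2 (Or.inl ?_)
    show 2 * κ l + 0 < 2 * κ l' + 1
    omega
  · refine (hz.lt _ _ _ _).2 (Or.inl ?_)
    show 2 * κ l + 1 < 2 * κ l' + 0
    omega
  · refine (hz.lt _ _ _ _).2 (Or.inl ?_)
    show 2 * κ l + 1 < 2 * κ l' + 1
    omega
  · have h1 := ((hz.eq_iff _ _ _ _).1 hl).1
    have h2 : 2 * κ l + 0 = 2 * κ l' + 1 := h1
    omega

end

theorem pf_JKS (hSOL : T_SOL) (hTM2 : T_TM2) (hNCT : T_NCT) (hSCF : T_SCF) : T_JKS := by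
  classical
  intro σ V X Θ _ M B 𝔸 D h hcore κ s hs
  have hex : ∀ l : Fin 6, ∃ m : Fin 6, κ m = κ l ∧ ∀ m', κ m' = κ l → m ≤ m' := by
    intro l
    have h1 : (Finset.univ.filter (fun m => κ m = κ l)).Nonempty :=
      ⟨l, Finset.mem_filter.2 ⟨Finset.mem_univ _, rfl⟩⟩
    refine ⟨(Finset.univ.filter (fun m => κ m = κ l)).min' h1,
      (Finset.mem_filter.1 (Finset.min'_mem _ h1)).2, fun m' hm' => ?_⟩
    exact Finset.min'_le (Finset.univ.filter (fun m => κ m = κ l)) m'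
      (Finset.mem_filter.2 ⟨Finset.mem_univ _, hm'⟩)
  choose lam hlam1 hlam2 using hex
  have hlam : ∀ l l', κ l = κ l' → lam l = lam l' := by
    intro l l' hl
    apply le_antisymm
    · exact hlam2 l _ (by rw [hlam1, hl])
    · exact hlam2 l' _ (by rw [hlam1, hl])
  obtain ⟨φ, hφ, hφ2⟩ := hSOL σ V X Θ M B 𝔸 D hcore.sit.blind (Fin 6) 6 lam (fun _ l => κ l)
    (fun k => {l | κ l = k}) (fun _ _ => rfl) (fun _ l l' hl => hlam l' l hl) (fun _ => True)
    (fun v w => ot B D (h v w)) (hcore.sit.pm.pmo D) hcore.sit.tid.ot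
  obtain ⟨J', -, hJ'⟩ := hTM2 σ V X Θ M B 𝔸 D 6 _ φ hφ
  set θ : Fin 6 → Θ := fun _ => s with hθ
  -- the type of the value
  have hty : ty D φ θ = s := by
    obtain ⟨x0, hx0⟩ := B.surjT s
    obtain ⟨z, hz⟩ := hSCF V X Θ M B Unit (Fin 6) ℕ (fun _ _ => x0)
      (fun _ l => κ l) (fun _ _ => 0) (fun k => {l | κ l = k})
      (fun _ _ _ _ _ => ⟨fun _ => rfl, fun _ => rfl⟩)
    have h1 := hφ2 Unit ℕ (fun _ _ => x0) (fun _ _ => 0) (fun _ _ => 0) z
      (fun _ _ _ _ _ => ⟨fun _ => rfl, fun _ => rfl⟩) hz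
      (fun _ _ _ _ _ _ _ => Iff.rfl) () ()
    have h2 := ty_eq (B := B) (D := D) φ (fun (_ : Fin 6) (_ : Unit) => x0)
      (fun _ _ => 0) ()
    have h3 : (fun _ : Fin 6 => B.vt x0) = θ := by
      funext m
      exact hx0
    have h4 : ty D φ θ = (φ (fun m => dat B D ((fun (_ : Fin 6) (_ : Unit) => x0) m)
        ((fun (_ : Fin 6) (_ : Unit) => 0) m) () ())).1.1 := by
      rw [← h2, h3]
    rw [h4, ← h1]
    have hzb : ZB B κ (z ()) := hz.zb () κ (fun _ => rfl) (fun _ _ _ => rfl)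
      (fun _ _ _ => Or.inr rfl)
    exact hcore.pur κ s (z ()) hzb (fun l => (hz.typ () l).trans hx0)
  have hty' : ty D φ θ ∉ D := by
    rw [hty]
    exact hs
  -- the set of the positions
  have hdet : ∀ z z' : Fin 6 → V, (∀ l, B.vt (z l) = s) → (∀ l, B.vt (z' l) = s) →
      ZA B κ z z' → ((h z z').2 = Ordering.eq ↔ ∀ m ∈ J' θ, z m = z' m) := by
    intro z z' hz hz' hA
    set zz : Fin 2 → Fin 6 → V := fun a => if a = 0 then z else z' with hzz
    have z0 : zz 0 = z := rfl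
    have z1 : zz 1 = z' := rfl
    have hcase : ∀ (p : Fin 2 → Prop), p 0 → p 1 → ∀ a, p a := by
      intro p h0 h1 a
      fin_cases a
      · exact h0
      · exact h1
    have hzt : ∀ a l, B.vt (zz a l) = s := hcase _ hz hz'
    have hzeq : ∀ a l l', κ l = κ l' → zz a l = zz a l' :=
      hcase _ (fun l l' hl => (hA.eq l l' hl).1) (fun l l' hl => (hA.eq l l' hl).2)
    have hzlt : ∀ a b l l', κ l < κ l' → zz a l < zz b l' :=
      hcase _ (hcase _ (fun l l' hl => (hA.lt l l' hl).1) (fun l l' hl => (hA.lt l l' hl).2.1))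
        (hcase _ (fun l l' hl => (hA.lt l l' hl).2.2.1) (fun l l' hl => (hA.lt l l' hl).2.2.2))
    have hzfr : ∀ a b l l', κ l < κ l' → B.c (zz a l) (zz b l') = B.fr s s := by
      refine hcase _ (hcase _ (fun l l' hl => ?_) (fun l l' hl => ?_))
        (hcase _ (fun l l' hl => ?_) (fun l l' hl => ?_))
      · rw [z0, (hA.free l l' hl).1, hz, hz]
      · rw [z0, z1, (hA.free l l' hl).2.1, hz, hz']
      · rw [z0, z1, (hA.free l l' hl).2.2.1, hz, hz']
      · rw [z1, (hA.free l l' hl).2.2.2, hz', hz']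
    have hrk : ∀ m : Fin 6, ∃ Λ : Fin 2 → ℕ, ∀ a b, Λ a < Λ b ↔ zz a m < zz b m :=
      fun m => exists_rank (fun a => zz a m)
    choose Λ hΛ using hrk
    have hΛ' : ∀ m a b, Λ m a = Λ m b ↔ zz a m = zz b m := by
      intro m a b
      have h1 := hΛ m a b
      have h2 := hΛ m b a
      constructor
      · intro h3
        apply le_antisymm
        · rw [← not_lt, ← h2, h3]
          exact lt_irrefl _
        · rw [← not_lt, ← h1, h3]
          exact lt_irrefl _
      · intro h3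
        apply le_antisymm
        · rw [← not_lt, h2, h3]
          exact lt_irrefl _
        · rw [← not_lt, h1, h3]
          exact lt_irrefl _
    have hR : ∀ m, Rnk B D (fun a => zz a m) (Λ m) := fun m a b _ _ => hΛ' m a b
    have hlz : ∀ a l, zz a (lam l) = zz a l := fun a l => hzeq a _ _ (hlam1 l)
    have hcfg : Cfg B (fun a l => zz a (lam l)) (fun _ l => κ l) (fun a l => zz a l)
        (fun k => {l | κ l = k}) zz := by
      refine ⟨fun a l => ?_, fun a l b l' => ?_, fun a l b l' => ⟨?_, ?_⟩⟩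
      · rw [hzt, hzt]
      · rcases lt_trichotomy (κ l) (κ l') with h1 | h1 | h1
        · exact ⟨fun _ => Or.inl h1, fun _ => hzlt _ _ _ _ h1⟩
        · constructor
          · exact fun h2 => Or.inr ⟨h1, h2⟩
          · rintro (h2 | h2)
            · exact absurd h1 (ne_of_lt h2)
            · exact h2.2
        · constructor
          · intro h2
            exact absurd h2 (lt_asymm (hzlt b a l' l h1))
          · rintro (h2 | h2)
            · exact absurd h1 (lt_asymm h2)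
            · exact absurd h2.1 (ne_of_gt h1)
      · rintro -
        simp only [hlz]
      · intro h1
        rw [hzt, hzt]
        rcases lt_trichotomy (κ l) (κ l') with h2 | h2 | h2
        · exact hzfr _ _ _ _ h2
        · have h3 : zz a (lam l) = zz b (lam l') := by
            by_contra h4
            exact h1 ⟨⟨l, rfl, h2⟩, h4⟩
          rw [hlz, hlz] at h3
          rw [h3, B.diag, hzt]
        · rw [B.sym (zz b l') (zz a l), hzfr _ _ _ _ h2, B.frI]
    have h1 := hφ2 (Fin 2) V (fun m a => zz a m) Λ (fun a l => zz a l) zz hR hcfg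
      (by
        intro a b l l' hl _ _
        rw [hΛ, hlz, hlz, hzeq b l l' hl]) 0 1
    have h2 := hJ' θ trivial hty' (fun m a => zz a m) Λ hR (fun m a => hzt a m)
    rw [← h1] at h2
    have h3 := pm_types hcore.sit.pm z z'
    rw [hcore.pur κ s z hA.left hz, hcore.pur κ s z' hA.right hz'] at h3
    have h4 : (ot B D (h z z')).2 = some none ↔ (h z z').2 = Ordering.eq := by
      unfold ot
      rw [h3.1, h3.2]
      simp only [hs, or_self, if_false]
      by_cases h5 : (h z z').2 = Ordering.eq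
      · simp [h5]
      · simp [h5]
    rw [← h4]
    exact h2
  have hfin : ∀ z z' : Fin 6 → V, ZA B κ z z' → ((∀ m ∈ J' θ, z m = z' m) ↔
      ∀ l ∈ {l : Fin 6 | ∃ m ∈ J' θ, κ m = κ l}, z l = z' l) := by
    intro z z' hA
    constructor
    · rintro h1 l ⟨m, hm, hml⟩
      rw [← (hA.eq m l hml).1, ← (hA.eq m l hml).2]
      exact h1 m hm
    · intro h1 m hm
      exact h1 m ⟨m, hm, rfl⟩
  refine ⟨{l | ∃ m ∈ J' θ, κ m = κ l}, ?_, ?_, ?_⟩
  · by_contra h1
    obtain ⟨z, z', hz, hz', hA, hne⟩ := two_blocks hSCF B κ s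
    refine hNCT σ V X Θ M B 𝔸 D h hcore.sit hcore.ne2 κ κ s z z' hs hz hz' hA.left hA.right hne
      ((hdet z z' hz hz' hA).2 ((hfin z z' hA).2 fun l hl => ?_))
    exact absurd ⟨l, hl⟩ h1
  · intro l l' hl
    constructor
    · rintro ⟨m, hm, hml⟩
      exact ⟨m, hm, hml.trans hl⟩
    · rintro ⟨m, hm, hml⟩
      exact ⟨m, hm, hml.trans hl.symm⟩
  · intro z z' hz hz' hA
    exact (hdet z z' hz hz' hA).trans (hfin z z' hA)

end Pool.Agent.H19.SO
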