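import Pool.Agent.H58.SO.Basic

/-!
# The determining letters of the special blocks (MP_6ab439_lc, row LET)
-/

set_option autoImplicit false

namespace Pool.Agent.H19.SO

open Pool.Agent.H68.BP Pool.Agent.H58.SF Pool.Agent.H53.GC Pool.Agent.H53.NR Pool.Agent.H58.SO

theorem pat_val (r : Fin 3) (l : Fin 6) : pat r (0 : ℕ) 7 l = 0 ∨ pat r (0 : ℕ) 7 l = 7 := by
  fin_cases r <;> fin_cases l <;> simp [pat]

theorem pat_ite {Y : Type} (r : Fin 3) (x y : Y) (l : Fin 6) :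
    pat r x y l = if pat r (0 : ℕ) 7 l = 0 then x else y := by
  have h := pat_map (fun n : ℕ => if n = 0 then x else y) r 0 7 l
  simp only [if_true] at h
  rw [h]
  simp

/-- four free vertices of the same type in ascending order -/
theorem four_free (hSCF : T_SCF) {V X Θ : Type} [LinearOrder V] {M : ℕ} (B : Bs V X Θ M)
    (s : Θ) : ∃ w : Fin 4 → V, StrictMono w ∧ (∀ i, B.vt (w i) = s) ∧
      ∀ i j, B.c (w i) (w j) = B.fr s s := by
  obtain ⟨x0, hx0⟩ := B.surjT s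
  obtain ⟨z, hz⟩ := hSCF V X Θ M B (Fin 4) Unit ℕ (fun _ _ => x0) (fun a _ => a.val)
    (fun _ _ => 0) (fun _ => ∅) (fun _ _ _ _ _ => ⟨fun _ => rfl, fun _ => rfl⟩)
  refine ⟨fun i => z i (), fun i j hij => ?_, fun i => ?_, fun i j => ?_⟩
  · exact (hz.lt i () j ()).2 (Or.inl hij)
  · exact (hz.typ i ()).trans hx0
  · have h1 := (hz.col i () j ()).2 (fun h => h.2 rfl)
    rw [hx0] at h1
    exact h1

theorem pf_LET (hSCF : T_SCF) : T_LET := by
  intro σ V X Θ _ M B 𝔸 D h hcore s _ J hJ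
  obtain ⟨w, hw1, hw2, hw3⟩ := four_free hSCF B s
  have hlt : ∀ i j : Fin 4, i < j → w i < w j := fun i j hij => hw1 hij
  -- blocks
  have hpv : ∀ (r : Fin 3) (i j : Fin 4) (l : Fin 6), B.vt (pat r (w i) (w j) l) = s := by
    intro r i j l
    rw [pat_ite]
    split_ifs
    · exact hw2 i
    · exact hw2 j
  have hZA : ∀ (r : Fin 3) (i j i' j' : Fin 4), i < j → i < j' → i' < j → i' < j' →
      ZA B (pat r (0 : ℕ) 7) (pat r (w i) (w j)) (pat r (w i') (w j')) := by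
    intro r i j i' j' h1 h2 h3 h4
    refine ⟨fun l l' hl => ?_, fun l l' hl => ?_, fun l l' hl => ?_⟩
    · rw [pat_ite r (w i) (w j) l, pat_ite r (w i) (w j) l', pat_ite r (w i') (w j') l,
        pat_ite r (w i') (w j') l', hl]
      exact ⟨rfl, rfl⟩
    · have h5 : pat r (0 : ℕ) 7 l = 0 := by
        rcases pat_val r l with h5 | h5
        · exact h5
        · rcases pat_val r l' with h6 | h6 <;> omega
      have h6 : pat r (0 : ℕ) 7 l' ≠ 0 := by omega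
      rw [pat_ite r (w i) (w j) l, pat_ite r (w i) (w j) l', pat_ite r (w i') (w j') l,
        pat_ite r (w i') (w j') l', if_pos h5, if_pos h5, if_neg h6, if_neg h6]
      exact ⟨hlt _ _ h1, hlt _ _ h2, hlt _ _ h3, hlt _ _ h4⟩
    · have h5 : pat r (0 : ℕ) 7 l = 0 := by
        rcases pat_val r l with h5 | h5
        · exact h5
        · rcases pat_val r l' with h6 | h6 <;> omega
      have h6 : pat r (0 : ℕ) 7 l' ≠ 0 := by omega
      simp only [hpv]
      rw [pat_ite r (w i) (w j) l, pat_ite r (w i) (w j) l', pat_ite r (w i') (w j') l,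
        pat_ite r (w i') (w j') l', if_pos h5, if_pos h5, if_neg h6, if_neg h6]
      exact ⟨hw3 _ _, hw3 _ _, hw3 _ _, hw3 _ _⟩
  have hne : ∀ i j : Fin 4, i ≠ j → w i ≠ w j := fun i j hij h => hij (hw1.injective h)
  -- the letter 0
  have k0 : ∀ r, (h (pat r (w 0) (w 2)) (pat r (w 1) (w 2))).2 = Ordering.eq ↔
      ¬ ∃ l ∈ J r, pat r (0 : ℕ) 7 l = 0 := by
    intro r
    rw [(hJ r).det _ _ (hpv r 0 2) (hpv r 1 2)
      (hZA r 0 2 1 2 (by decide) (by decide) (by decide) (by decide))]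
    constructor
    · rintro h1 ⟨l, hl, hl0⟩
      have h2 := h1 l hl
      rw [pat_ite, pat_ite r (w 1), if_pos hl0, if_pos hl0] at h2
      exact hne 0 1 (by decide) h2
    · intro h1 l hl
      have h2 : pat r (0 : ℕ) 7 l ≠ 0 := fun h2 => h1 ⟨l, hl, h2⟩
      rw [pat_ite, pat_ite r (w 1), if_neg h2, if_neg h2]
  have k7 : ∀ r, (h (pat r (w 0) (w 2)) (pat r (w 0) (w 3))).2 = Ordering.eq ↔
      ¬ ∃ l ∈ J r, pat r (0 : ℕ) 7 l = 7 := by
    intro r
    rw [(hJ r).det _ _ (hpv r 0 2) (hpv r 0 3)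
      (hZA r 0 2 0 3 (by decide) (by decide) (by decide) (by decide))]
    constructor
    · rintro h1 ⟨l, hl, hl0⟩
      have h2 := h1 l hl
      have h3 : pat r (0 : ℕ) 7 l ≠ 0 := by omega
      rw [pat_ite, pat_ite r (w 0) (w 3), if_neg h3, if_neg h3] at h2
      exact hne 2 3 (by decide) h2
    · intro h1 l hl
      have h2 : pat r (0 : ℕ) 7 l = 0 := by
        rcases pat_val r l with h3 | h3
        · exact h3
        · exact absurd ⟨l, hl, h3⟩ h1
      rw [pat_ite, pat_ite r (w 0) (w 3), if_pos h2, if_pos h2]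
  have e0 : ∀ r, (∃ l ∈ J r, pat r (0 : ℕ) 7 l = 0) ↔ ∃ l ∈ J 0, pat 0 (0 : ℕ) 7 l = 0 := by
    intro r
    have h1 := k0 r
    rw [hcore.sit.exact r, k0 0] at h1
    exact (not_iff_not.1 h1).symm
  have e7 : ∀ r, (∃ l ∈ J r, pat r (0 : ℕ) 7 l = 7) ↔ ∃ l ∈ J 0, pat 0 (0 : ℕ) 7 l = 7 := by
    intro r
    have h1 := k7 r
    rw [hcore.sit.exact r, k7 0] at h1
    exact (not_iff_not.1 h1).symm
  refine ⟨{i | ∃ l ∈ J 0, pat 0 (0 : ℕ) 7 l = i}, ?_, fun r l => ?_⟩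
  · obtain ⟨l, hl⟩ := (hJ 0).ne
    exact ⟨pat 0 (0 : ℕ) 7 l, ⟨l, hl, rfl⟩, pat_val 0 l⟩
  · have h1 : l ∈ J r ↔ ∃ l' ∈ J r, pat r (0 : ℕ) 7 l' = pat r (0 : ℕ) 7 l :=
      ⟨fun h2 => ⟨l, h2, rfl⟩, fun ⟨l', h2, h3⟩ => ((hJ r).sat l' l h3).1 h2⟩
    rw [h1]
    show _ ↔ ∃ l' ∈ J 0, pat 0 (0 : ℕ) 7 l' = pat r (0 : ℕ) 7 l
    rcases pat_val r l with h2 | h2
    · rw [h2]
      exact e0 r
    · rw [h2]
      exact e7 r

end Pool.Agent.H19.SO
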