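import Pool.Agent.H58.SO.Basic

/-!
# Operations on data and the full relation (MP_6ab439_lc, row OLK)
-/

set_option autoImplicit false

namespace Pool.Agent.H19.SO

open Pool.Agent.H68.BP Pool.Agent.H58.SF Pool.Agent.H53.GC Pool.Agent.H53.NR Pool.Agent.H58.SO

theorem pf_OLK : T_OLK := by
  intro σ V X Θ _ M B 𝔸 D n Q φ hφ k x L hk hkM hR hQ
  have hf : ∃ f : Fin M → Fin k, ∀ a : Fin k, f (Fin.castLE hkM a) = a := by
    refine ⟨fun i => if h : (i : ℕ) < k then ⟨i, h⟩ else ⟨0, hk⟩, fun a => ?_⟩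
    have h1 : ((Fin.castLE hkM a : Fin M) : ℕ) < k := a.2
    show (if h : ((Fin.castLE hkM a : Fin M) : ℕ) < k then
      (⟨((Fin.castLE hkM a : Fin M) : ℕ), h⟩ : Fin k) else ⟨0, hk⟩) = a
    rw [dif_pos h1]
    rfl
  obtain ⟨f, hf⟩ := hf
  obtain ⟨y, -, hy⟩ := hφ none (fun m i => x m (f i)) (fun m i => L m (f i))
    (fun _ => trivial) (fun m a b ha hb => hR m (f a) (f b) ha hb) (fun a => hQ (f a))
  refine ⟨fun a => y (Fin.castLE hkM a), fun a b => ?_⟩
  have h1 : out B D (fun a => y (Fin.castLE hkM a)) a b =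
      out B D y (Fin.castLE hkM a) (Fin.castLE hkM b) := rfl
  rw [h1, hy]
  congr 1
  funext m
  have h2 : dat B D (fun i => x m (f i)) (fun i => L m (f i)) (Fin.castLE hkM a)
      (Fin.castLE hkM b) = dat B D (x m) (L m) (f (Fin.castLE hkM a)) (f (Fin.castLE hkM b)) := rfl
  refine h2.trans ?_
  rw [hf a, hf b]

end Pool.Agent.H19.SO
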