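import Pool.Agent.H58.SO.Basic

/-!
# Blocks with different determining entries have different values (MP_6ab439_lc, row SEP)
-/

set_option autoImplicit false

namespace Pool.Agent.H19.SO

open Pool.Agent.H68.BP Pool.Agent.H58.SF Pool.Agent.H53.GC Pool.Agent.H53.NR Pool.Agent.H58.SO

section

variable {V X Θ : Type} [LinearOrder V] {M : ℕ} {B : Bs V X Θ M}

/-- three copies of the entries of a tuple, the first one with the colours of the tuple -/
theorem sep_copies (hSYS : T_SYS) (B : Bs V X Θ M) {I : Type} [Finite I] (x : I → V) :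
    ∃ F : I → Fin 3 → V,
      (∀ t i t' i', F t i < F t' i' ↔ x t < x t' ∨ (x t = x t' ∧ i < i')) ∧
      (∀ t i t' i', F t i = F t' i' ↔ x t = x t' ∧ i = i') ∧
      (∀ t i, B.vt (F t i) = B.vt (x t)) ∧
      (∀ t t', B.c (F t 0) (F t' 0) = B.c (x t) (x t')) ∧
      ∀ t i t' i', (i ≠ 0 ∨ i' ≠ 0) →
        B.c (F t i) (F t' i') = B.fr (B.vt (x t)) (B.vt (x t')) := by
  let S : Set (V ×ₗ Fin 3) := Set.range (fun t : I × Fin 3 => toLex (x t.1, t.2))
  have hS : Finite S := Set.finite_range _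
  obtain ⟨e, he1, he2, he3⟩ := hSYS V X Θ M B S (fun w => (ofLex w.1).1)
    (fun w w' => (ofLex w.1).2 = 0 ∧ (ofLex w'.1).2 = 0) (fun _ _ h => ⟨h.2, h.1⟩)
  let mk : I → Fin 3 → S := fun t i => ⟨toLex (x t, i), ⟨(t, i), rfl⟩⟩
  have hlt : ∀ t i t' i', mk t i < mk t' i' ↔ x t < x t' ∨ (x t = x t' ∧ i < i') := by
    intro t i t' i'
    show toLex (x t, i) < toLex (x t', i') ↔ _
    rw [Prod.Lex.toLex_lt_toLex]
  have heq : ∀ t i t' i', mk t i = mk t' i' ↔ x t = x t' ∧ i = i' := by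
    intro t i t' i'
    constructor
    · intro h
      have h1 : toLex (x t, i) = toLex (x t', i') := congrArg Subtype.val h
      exact Prod.mk.inj (toLex.injective h1)
    · rintro ⟨h1, h2⟩
      apply Subtype.ext
      show toLex (x t, i) = toLex (x t', i')
      rw [h1, h2]
  refine ⟨fun t i => e (mk t i), ?_, ?_, fun t i => he2 (mk t i), ?_, ?_⟩
  · intro t i t' i'
    rw [← hlt]
    exact he1.lt_iff_lt
  · intro t i t' i'
    rw [← heq]
    exact he1.injective.eq_iff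
  · intro t t'
    by_cases h : x t = x t'
    · show B.c (e (mk t 0)) (e (mk t' 0)) = B.c (x t) (x t')
      rw [(heq t 0 t' 0).2 ⟨h, rfl⟩, h, B.diag, B.diag]
      have h1 : B.vt (e (mk t' 0)) = B.vt (x t') := he2 (mk t' 0)
      rw [h1]
    · exact (he3 (mk t 0) (mk t' 0) (fun h1 => h ((heq _ _ _ _).1 h1).1)).1 ⟨⟨rfl, rfl⟩, h⟩
  · intro t i t' i' hi
    by_cases h : mk t i = mk t' i'
    · have h1 : B.vt (e (mk t' i')) = B.vt (x t') := he2 (mk t' i')
      show B.c (e (mk t i)) (e (mk t' i')) = B.fr (B.vt (x t)) (B.vt (x t'))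
      rw [h, B.diag, h1, ((heq _ _ _ _).1 h).1]
    · refine (he3 (mk t i) (mk t' i') h).2 fun h1 => ?_
      have h2 : i = 0 ∧ i' = 0 := h1.1
      rcases hi with h3 | h3
      · exact h3 h2.1
      · exact h3 h2.2

end

theorem pf_SEP (hSYS : T_SYS) (hEXT : T_EXT) (hNCT : T_NCT) : T_SEP := by
  classical
  intro σ V X Θ _ M B 𝔸 D h hcore κ κ' s J J' v v' hs hJ hJ' hv hv' hz hz' hne hvv
  obtain ⟨F, f1, f2, f3, f4, f5⟩ := sep_copies hSYS B (Sum.elim v v')
  have hx : ∀ t : Fin 6 ⊕ Fin 6, B.vt (Sum.elim v v' t) = s := by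
    rintro (l | l)
    · exact hv l
    · exact hv' l
  have f3' : ∀ t i, B.vt (F t i) = s := fun t i => (f3 t i).trans (hx t)
  -- copies
  have hcopy : (h (fun l => F (Sum.inl l) 0) (fun l => F (Sum.inr l) 0)).2 = Ordering.eq := by
    rw [← hvv]
    congr 1
    refine (hcore.sit.tid _ _ _ _ (sameO_of_ct fun a b => ?_)).symm
    have hel : ∀ a : Fin 6 ⊕ Fin 6,
        Sum.elim (fun l => F (Sum.inl l) 0) (fun l => F (Sum.inr l) 0) a = F a 0 := by
      rintro (l | l) <;> rfl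
    rw [hel, hel, B.ct_eq_ct, f4, f1, f1]
    refine ⟨rfl, ?_, ?_⟩
    · constructor
      · rintro (h1 | ⟨-, h1⟩)
        · exact h1
        · exact absurd h1 (lt_irrefl _)
      · exact Or.inl
    · constructor
      · rintro (h1 | ⟨-, h1⟩)
        · exact h1
        · exact absurd h1 (lt_irrefl _)
      · exact Or.inl
  -- the general comparison
  have gen : ∀ (κ : Fin 6 → ℕ) (J : Set (Fin 6)) (ι : Fin 6 → Fin 6 ⊕ Fin 6) (b : Fin 3),
      JS B h κ s J → ZB B κ (fun l => Sum.elim v v' (ι l)) →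
      ZB B κ (fun l => F (ι l) (if l ∈ J then 0 else b)) ∧
      (h (fun l => F (ι l) 0) (fun l => F (ι l) (if l ∈ J then 0 else b))).2 = Ordering.eq := by
    intro κ J ι b hJ hb
    have hc : ∀ l l' i i', κ l < κ l' → B.c (F (ι l) i) (F (ι l') i') = B.fr s s := by
      intro l l' i i' hl
      by_cases h1 : i ≠ 0 ∨ i' ≠ 0
      · rw [f5 _ _ _ _ h1, hx, hx]
      · have h2 : i = 0 := by
          by_contra h3
          exact h1 (Or.inl h3)
        have h3 : i' = 0 := by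
          by_contra h3
          exact h1 (Or.inr h3)
        rw [h2, h3, f4]
        have h4 := ((hb l l').2 hl).2
        rw [h4, hx, hx]
    have hlt : ∀ l l' i i', κ l < κ l' → F (ι l) i < F (ι l') i' := by
      intro l l' i i' hl
      exact (f1 _ _ _ _).2 (Or.inl ((hb l l').2 hl).1)
    have hZA : ZA B κ (fun l => F (ι l) 0) (fun l => F (ι l) (if l ∈ J then 0 else b)) := by
      refine ⟨fun l l' hl => ⟨?_, ?_⟩, fun l l' hl => ?_, fun l l' hl => ?_⟩
      · exact (f2 _ _ _ _).2 ⟨(hb l l').1 hl, rfl⟩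
      · refine (f2 _ _ _ _).2 ⟨(hb l l').1 hl, ?_⟩
        by_cases h1 : l ∈ J
        · rw [if_pos h1, if_pos ((hJ.sat l l' hl).1 h1)]
        · rw [if_neg h1, if_neg fun h2 => h1 ((hJ.sat l l' hl).2 h2)]
      · exact ⟨hlt _ _ _ _ hl, hlt _ _ _ _ hl, hlt _ _ _ _ hl, hlt _ _ _ _ hl⟩
      · simp only [f3', hc _ _ _ _ hl, and_self]
    refine ⟨hZA.right, (hJ.det _ _ (fun l => f3' _ _) (fun l => f3' _ _) hZA).2 fun l hl => ?_⟩
    show F (ι l) 0 = F (ι l) (if l ∈ J then 0 else b)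
    rw [if_pos hl]
  obtain ⟨g1, g2⟩ := gen κ J Sum.inl 1 hJ hz
  obtain ⟨g3, g4⟩ := gen κ' J' Sum.inr 2 hJ' hz'
  set v0 : Fin 6 → V := fun l => F (Sum.inl l) 0 with hv0
  set v0' : Fin 6 → V := fun l => F (Sum.inr l) 0 with hv0'
  set v1 : Fin 6 → V := fun l => F (Sum.inl l) (if l ∈ J then 0 else 1) with hv1
  set v1' : Fin 6 → V := fun l => F (Sum.inr l) (if l ∈ J' then 0 else 2) with hv1'
  obtain ⟨γ, hγ, -⟩ := hEXT σ V X Θ M B 𝔸 D hcore.sit.blind (Fin 6) h hcore.sit.pm (Fin 4)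
    ![v0, v1, v0', v1']
  have e1 : γ 0 = γ 2 := by
    rw [← B.ct_snd_eq, hγ]
    exact hcopy
  have e2 : γ 0 = γ 1 := by
    rw [← B.ct_snd_eq, hγ]
    exact g2
  have e3 : γ 2 = γ 3 := by
    rw [← B.ct_snd_eq, hγ]
    exact g4
  have e4 : (h v1 v1').2 = Ordering.eq := by
    have h1 : h v1 v1' = B.ct (γ 1) (γ 3) := (hγ 1 3).symm
    rw [h1, B.ct_snd_eq, ← e2, ← e3, e1]
  refine hNCT σ V X Θ M B 𝔸 D h hcore.sit hcore.ne2 κ κ' s v1 v1' hs (fun l => f3' _ _)
    (fun l => f3' _ _) g1 g3 (fun l l' hll => ?_) e4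
  obtain ⟨h1, h2⟩ := (f2 _ _ _ _).1 hll
  by_cases hl : l ∈ J
  · by_cases hl' : l' ∈ J'
    · exact hne l hl l' hl' h1
    · rw [if_pos hl, if_neg hl'] at h2
      exact absurd h2 (by decide)
  · rw [if_neg hl] at h2
    by_cases hl' : l' ∈ J'
    · rw [if_pos hl'] at h2
      exact absurd h2 (by decide)
    · rw [if_neg hl'] at h2
      exact absurd h2 (by decide)

end Pool.Agent.H19.SO
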