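import Pool.Agent.H58.SO.Basic

/-!
# The typed injective part (MP_6ab439_lc, row STA)
-/

set_option autoImplicit false

namespace Pool.Agent.H19.SO

open Pool.Agent.H68.BP Pool.Agent.H58.SF Pool.Agent.H53.GC Pool.Agent.H53.NR Pool.Agent.H58.SO

/-- one relation of the typed injective part is closed under splitting -/
theorem sta_aux {σ : Sig} {V X Θ : Type} [LinearOrder V] {M : ℕ} {B : Bs V X Θ M}
    {𝔸 : Str σ V} {D : Set Θ} (hB : Blind B 𝔸 D) (s : SyT σ M Θ) (x y : Fin s.2.1 → V)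
    (hc : ∀ a b, B.c (y a) (y b) = B.c (x a) (x b)) (hyi : ∀ a b, y a = y b → x a = x b)
    (h : Function.Injective x ∧ (∀ j, B.vt (x j) = s.2.2.2.2 j ∧ s.2.2.2.2 j ∉ D) ∧
      ∃ x', relP 𝔸 M s.1 x' ∧ (∀ a, B.vt (x' a) = s.2.2.2.1 a) ∧
        ∀ a, s.2.2.2.1 a ∉ D → x' a = x (s.2.2.1 a)) :
    Function.Injective y ∧ (∀ j, B.vt (y j) = s.2.2.2.2 j ∧ s.2.2.2.2 j ∉ D) ∧
      ∃ x', relP 𝔸 M s.1 x' ∧ (∀ a, B.vt (x' a) = s.2.2.2.1 a) ∧
        ∀ a, s.2.2.2.1 a ∉ D → x' a = y (s.2.2.1 a) := by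
  classical
  obtain ⟨h1, h2, x₀, h3, h4, h5⟩ := h
  have hv : ∀ a, B.vt (y a) = B.vt (x a) := fun a => (B.vt_of_c (hc a a)).1
  refine ⟨fun i j hij => h1 (hyi _ _ hij), fun j => ⟨?_, (h2 j).2⟩, ?_⟩
  · rw [hv]
    exact (h2 j).1
  · refine ⟨fun a => if s.2.2.2.1 a ∈ D then x₀ a else y (s.2.2.1 a), ?_, ?_, ?_⟩
    · refine hB.rel h3 ⟨fun a => ?_, fun a b ha hb => ?_⟩
      · show B.vt (if s.2.2.2.1 a ∈ D then x₀ a else y (s.2.2.1 a)) = B.vt (x₀ a)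
        by_cases h6 : s.2.2.2.1 a ∈ D
        · rw [if_pos h6]
        · rw [if_neg h6, hv, h5 a h6]
      · rw [h4 a] at ha
        rw [h4 b] at hb
        show ((if s.2.2.2.1 a ∈ D then x₀ a else y (s.2.2.1 a)) =
          (if s.2.2.2.1 b ∈ D then x₀ b else y (s.2.2.1 b)) ↔ x₀ a = x₀ b) ∧
          B.c (if s.2.2.2.1 a ∈ D then x₀ a else y (s.2.2.1 a))
            (if s.2.2.2.1 b ∈ D then x₀ b else y (s.2.2.1 b)) = B.c (x₀ a) (x₀ b)
        rw [if_neg ha, if_neg hb, h5 a ha, h5 b hb]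
        refine ⟨⟨fun h => hyi _ _ h, fun h => ?_⟩, hc _ _⟩
        rw [h1 h]
    · intro a
      show B.vt (if s.2.2.2.1 a ∈ D then x₀ a else y (s.2.2.1 a)) = s.2.2.2.1 a
      by_cases h6 : s.2.2.2.1 a ∈ D
      · rw [if_pos h6, h4]
      · rw [if_neg h6, hv, ← h4 a, h5 a h6]
    · intro a ha
      show (if s.2.2.2.1 a ∈ D then x₀ a else y (s.2.2.1 a)) = y (s.2.2.1 a)
      rw [if_neg ha]

theorem pf_STA : T_STA := by
  intro σ V X Θ _ _ M B 𝔸 D hB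
  refine ⟨B.finX, B.ne, by have := B.four; omega, ⟨fun x y => ?_, fun x y => ?_, B.surjX⟩,
    B.univ, ?_⟩
  · show B.c x x = B.fr (B.L (B.c x y)) (B.L (B.c x y))
    rw [B.left, B.diag]
  · show B.c y y = B.fr (B.Rt (B.c x y)) (B.Rt (B.c x y))
    rw [B.right, B.diag]
  · intro l x y hx hxy hinj
    have hc : ∀ a b, B.c (y a) (y b) = B.c (x a) (x b) := by
      intro a b
      rcases le_total (y a) (y b) with h | h
      · exact hxy a b h
      · exact B.c_congr_symm (hxy b a h)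
    exact sta_aux hB _ _ _ (fun a b => hc _ _) (fun a b h => hinj _ _ h) hx

end Pool.Agent.H19.SO
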